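import Mathlib

/-!
# DIM* (MP_8f2e1c_an), chapter X*, (G4): the combinatorial part

`N s l` (`l < s` in the infinite set `B`) bounded, points `p s l` in a bounded set: there are `k < l < m` in `B` with `N l k = N m k = N m l = u` and
`‖p l k - p m k‖ < ε u`. PROOF. An ultrafilter `V` on `ℕ` which contains `B` and the cofinite sets: `N s k = u k` for `V`-many `s`, `u k = u` for
`V`-many `k`; the points `p s k` have a limit along `V`.
-/

set_option autoImplicit false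

open Filter Topology Metric Set

namespace Pool.Agent.H41.XG

private theorem uconst (V : Ultrafilter ℕ) {N : ℕ → ℕ} {C : ℕ} (h : ∀ᶠ s in (V : Filter ℕ), N s ≤ C) :
    ∃ u, ∀ᶠ s in (V : Filter ℕ), N s = u := by
  have h1 : (⋃ u ∈ (Finset.range (C + 1) : Set ℕ), {s | N s = u}) ∈ V := by
    refine Filter.mem_of_superset h fun s hs => ?_
    simp only [mem_iUnion]
    exact ⟨N s, by simpa [Nat.lt_succ_iff] using hs, rfl⟩
  obtain ⟨u, -, hu⟩ := (Ultrafilter.finite_biUnion_mem_iff (Finset.finite_toSet _)).1 h1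
  exact ⟨u, hu⟩

theorem g4_comb {B : Set ℕ} (hB : B.Infinite) {N : ℕ → ℕ → ℕ} {C : ℕ}
    (hN : ∀ s ∈ B, ∀ l ∈ B, l < s → N s l ≤ C) {p : ℕ → ℕ → ℂ} {L : ℝ}
    (hp : ∀ s ∈ B, ∀ l ∈ B, l < s → ‖p s l‖ ≤ L) {ε : ℕ → ℝ} (hε : ∀ u, 0 < ε u) :
    ∃ k ∈ B, ∃ l ∈ B, ∃ m ∈ B, k < l ∧ l < m ∧ ∃ u, N l k = u ∧ N m k = u ∧ N m l = u ∧ ‖p l k - p m k‖ < ε u := by
  have hne : (Filter.cofinite ⊓ 𝓟 B : Filter ℕ).NeBot := by
    rw [Filter.inf_principal_neBot_iff]
    intro U hU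
    by_contra hc
    rw [not_nonempty_iff_eq_empty] at hc
    apply hB
    refine (mem_cofinite.1 hU).subset fun x hx hxU => ?_
    have : x ∈ U ∩ B := ⟨hxU, hx⟩
    rw [hc] at this
    exact this
  obtain ⟨V, hV⟩ : ∃ V : Ultrafilter ℕ, (V : Filter ℕ) ≤ Filter.cofinite ⊓ 𝓟 B := ⟨Ultrafilter.of _, Ultrafilter.of_le _⟩
  have hVB : ∀ᶠ s in (V : Filter ℕ), s ∈ B := (le_inf_iff.1 hV).2 (mem_principal_self B)
  have hVl : ∀ k : ℕ, ∀ᶠ s in (V : Filter ℕ), k < s := by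
    intro k
    refine (le_inf_iff.1 hV).1 ?_
    rw [mem_cofinite]
    refine (Set.finite_Iic k).subset fun x hx => ?_
    simpa using hx
  have h1 : ∀ k, ∃ u, k ∈ B → ∀ᶠ s in (V : Filter ℕ), N s k = u := by
    intro k
    by_cases hk : k ∈ B
    · obtain ⟨u, hu⟩ := uconst V (N := fun s => N s k) (C := C) (by
        filter_upwards [hVB, hVl k] with s hs hks
        exact hN s hs k hk hks)
      exact ⟨u, fun _ => hu⟩
    · exact ⟨0, fun h => absurd h hk⟩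
  choose u hu using h1
  obtain ⟨u0, hu0⟩ := uconst V (N := u) (C := C) (by
    filter_upwards [hVB] with k hk
    obtain ⟨s, hs1, hs2, hs3⟩ := ((hu k hk).and (hVB.and (hVl k))).exists
    rw [← hs1]
    exact hN s hs2 k hk hs3)
  obtain ⟨k, hk1, hk2⟩ := (hVB.and hu0).exists
  have h2 : closedBall (0 : ℂ) L ∈ V.map fun s => p s k := by
    rw [Ultrafilter.mem_map]
    filter_upwards [hVB, hVl k] with s hs hks
    show p s k ∈ closedBall (0 : ℂ) L
    rw [mem_closedBall_zero_iff]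
    exact hp s hs k hk1 hks
  obtain ⟨q, -, hq⟩ := (isCompact_closedBall (0 : ℂ) L).ultrafilter_le_nhds' (V.map fun s => p s k) h2
  have h3 : ∀ᶠ s in (V : Filter ℕ), ‖p s k - q‖ < ε u0 / 2 := by
    have h4 : Tendsto (fun s => p s k) (V : Filter ℕ) (𝓝 q) := hq
    filter_upwards [h4.eventually (ball_mem_nhds q (half_pos (hε u0)))] with s hs
    rw [← dist_eq_norm]
    exact hs
  have h5 := hu k hk1
  rw [hk2] at h5
  obtain ⟨l, l1, l2, l3, l4, l5⟩ := (hVB.and ((hVl k).and (h5.and (h3.and hu0)))).exists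
  have h6 := hu l l1
  rw [l5] at h6
  obtain ⟨m, m1, m2, m3, m4, m5⟩ := (hVB.and ((hVl l).and (h5.and (h3.and h6)))).exists
  refine ⟨k, hk1, l, l1, m, m1, l2, m2, u0, l3, m3, m5, ?_⟩
  calc ‖p l k - p m k‖ = ‖(p l k - q) - (p m k - q)‖ := by
        congr 1
        ring
    _ ≤ ‖p l k - q‖ + ‖p m k - q‖ := norm_sub_le _ _
    _ < ε u0 := by linarith

end Pool.Agent.H41.XG
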