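import Pool.Agent.H3.SZ2.Tt
import Pool.Agent.H43.UB.UH

/-!
# DIM* (MP_8f2e1c_an), chapter X*, (G4): the contradiction at a finite stage

`T1 = T_(l,k)`, `T2 = T_(m,k)`, `T3 = T_(m,l)` of the same type `u` with `f^[K1] ∘ τ2 = τ3` (`K1` the time of `T1`). If `τ1 0` is in `T2` (it is if it is close to
`τ2 0`: Koebe) we get a contradiction: `u = 0`: `f^[K1] (τ1 0) = c` is in `T3`, but `f^[K3]` is univalent there; `u ≥ 1`: `τ1 0` is a critical point of `f^[K1]`, but `f^[K1]` is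
univalent on `T2`.
-/

set_option autoImplicit false

open Filter Topology Metric Set

namespace Pool.Agent.H41.XG

open Pool.Agent.H56.UD (PS)
open Pool.Agent.H64.XL
open Pool.Agent.H66.GEO (Bl BB)
open Pool.Agent.H3.SZ (bb_diff bb_succ bb_lt bl_lt)
open Pool.Agent.H3.SZ2 (TT)

variable {f : ℂ → ℂ} {U J P Cr : Set ℂ} {δ : ℝ} {η : ℂ → ℂ → ℂ} {ρ : ℝ} {θ r : ℝ}

theorem it_diff (h : PS f U J P Cr δ η ρ) {K : ℕ} {y : ℂ} (hy : ∀ j < K, f^[j] y ∈ U) : DifferentiableAt ℂ (f^[K]) y := by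
  induction K generalizing y with
  | zero => exact differentiableAt_id
  | succ K ih =>
    rw [Function.iterate_succ]
    have h0 : y ∈ U := hy 0 (Nat.succ_pos _)
    have h1 : DifferentiableAt ℂ f y := h.fd.differentiableAt (h.Uo.mem_nhds h0)
    have h2 : DifferentiableAt ℂ (f^[K]) (f y) := ih fun j hj => by
      rw [← Function.iterate_succ_apply]
      exact hy (j + 1) (by omega)
    exact h2.comp y h1

/-- the critical points are critical -/
theorem cr_der (h : PS f U J P Cr δ η ρ) {c : ℂ} (hc : c ∈ Cr) : deriv f c = 0 := by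
  obtain ⟨n1, n2, n3, n4⟩ := h.nf c hc
  have h0 : (0 : ℂ) ∈ ball (0 : ℂ) ρ := mem_ball_self h.hρ
  have d1 := (n1.differentiableAt (isOpen_ball.mem_nhds h0)).hasDerivAt
  have hcU : c ∈ U := by rw [← n3]; exact (n4 0 h0).1
  have d2 := (h.fd.differentiableAt (h.Uo.mem_nhds hcU)).hasDerivAt
  have d2' : HasDerivAt f (deriv f c) (η c 0) := by rw [n3]; exact d2
  have d3 : HasDerivAt (f ∘ η c) (deriv f c * deriv (η c) 0) 0 := d2'.comp 0 d1
  have d4 : HasDerivAt (f ∘ η c) (2 * 0) 0 := by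
    have d5 : HasDerivAt (fun v : ℂ => f c + v ^ 2) (2 * 0) 0 := by
      simpa using (hasDerivAt_pow 2 (0 : ℂ)).const_add (f c)
    refine d5.congr_of_eventuallyEq ?_
    filter_upwards [isOpen_ball.mem_nhds h0] with w hw
    exact (n4 w hw).2
  have d6 := d3.unique d4
  rw [mul_zero] at d6
  exact (mul_eq_zero.1 d6).resolve_right (Pool.Agent.H43.UB.uh_der isOpen_ball n1 n2 h0)

theorem it_cr (h : PS f U J P Cr δ η ρ) {c : ℂ} (hc : c ∈ Cr) {K : ℕ} (hK : 1 ≤ K) (hy : ∀ j < K, f^[j] c ∈ U) :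
    deriv (f^[K]) c = 0 := by
  obtain ⟨K, rfl⟩ : ∃ K', K = K' + 1 := ⟨K - 1, by omega⟩
  rw [Function.iterate_succ]
  have h0 : c ∈ U := hy 0 (Nat.succ_pos _)
  have h1 : DifferentiableAt ℂ f c := h.fd.differentiableAt (h.Uo.mem_nhds h0)
  have h2 : DifferentiableAt ℂ (f^[K]) (f c) := it_diff h fun j hj => by
    rw [← Function.iterate_succ_apply]
    exact hy (j + 1) (by omega)
  have h3 := (h2.hasDerivAt.comp c h1.hasDerivAt).deriv
  rw [cr_der h hc, mul_zero] at h3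
  exact h3

/-- the derivative of `BB` at `0` -/
theorem bb_crit {α : ℕ → ℂ} {u : ℕ} (hu : 1 ≤ u) (ha : ∀ i < u, ‖α i‖ < 1) : HasDerivAt (BB b1 α u) 0 0 := by
  obtain ⟨u, rfl⟩ : ∃ u', u = u' + 1 := ⟨u - 1, by omega⟩
  have h1 : BB b1 α (u + 1) = fun x => BB b1 α u (Bl 1 (α u) x) := rfl
  have h2 : HasDerivAt (Bl 1 (α u)) 0 0 := by
    have e1 : HasDerivAt (fun x : ℂ => 1 * (x ^ 2 + α u)) (0 : ℂ) 0 := by
      simpa using ((hasDerivAt_pow 2 (0 : ℂ)).add_const (α u)).const_mul (1 : ℂ)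
    have e2 : HasDerivAt (fun x : ℂ => 1 + (starRingEnd ℂ) (α u) * x ^ 2) (0 : ℂ) 0 := by
      simpa using ((hasDerivAt_pow 2 (0 : ℂ)).const_mul ((starRingEnd ℂ) (α u))).const_add (1 : ℂ)
    have e3 := e1.div e2 (by simp)
    have e4 : (fun x : ℂ => 1 * (x ^ 2 + α u)) / (fun x : ℂ => 1 + (starRingEnd ℂ) (α u) * x ^ 2) = Bl 1 (α u) := by
      funext x
      rfl
    rw [e4] at e3
    simpa using e3
  have h3 : DifferentiableAt ℂ (BB b1 α u) (Bl 1 (α u) 0) := by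
    refine (bb_diff (fun i hi => ha i (by omega))).differentiableAt (isOpen_ball.mem_nhds ?_)
    exact mem_ball_zero_iff.2 (bl_lt (ha u (Nat.lt_succ_self u)) (by simp))
  rw [h1]
  have h4 := h3.hasDerivAt.comp (0 : ℂ) h2
  rwa [mul_zero] at h4

theorem g4_fin (h : PS f U J P Cr δ η ρ) {c : ℂ} (hc : c ∈ Cr) {χ0 : ℂ → ℂ} (hχ : DifferentiableOn ℂ χ0 (ball 0 1))
    (hχi : InjOn χ0 (ball 0 1)) (hχ0 : χ0 0 = c) {α α2 α3 : ℕ → ℂ} {u K1 K2 K3 : ℕ} {τ1 τ2 τ3 : ℂ → ℂ}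
    (T1 : TT f U P θ r χ0 α u K1 τ1) (T2 : TT f U P θ r χ0 α2 u K2 τ2) (T3 : TT f U P θ r χ0 α3 u K3 τ3)
    (hst : ∀ v ∈ ball (0 : ℂ) 1, f^[K1] (τ2 v) = τ3 v) (hd : ‖τ1 0 - τ2 0‖ < ‖deriv τ2 0‖ / 16) : False := by
  have h00 : (0 : ℂ) ∈ ball (0 : ℂ) 1 := mem_ball_self one_pos
  -- `τ1 0` is in `T2`
  obtain ⟨v, hv, hve⟩ : τ1 0 ∈ τ2 '' ball 0 1 := by
    refine Pool.Agent.H80.AJ.univ_cover one_pos T2.d T2.i ?_
    rw [mem_ball, dist_eq_norm, one_mul]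
    exact hd
  have hder : ∀ {g : ℂ → ℂ}, DifferentiableOn ℂ g (ball 0 1) → InjOn g (ball 0 1) → ∀ w ∈ ball (0 : ℂ) 1, deriv g w ≠ 0 :=
    fun hg hi w hw => Pool.Agent.H43.UB.uh_der isOpen_ball hg hi hw
  have hchain : ∀ {K : ℕ} {g k : ℂ → ℂ} {w k' : ℂ}, DifferentiableOn ℂ g (ball 0 1) → w ∈ ball (0 : ℂ) 1 →
      (∀ j < K, f^[j] (g w) ∈ U) → (∀ x ∈ ball (0 : ℂ) 1, f^[K] (g x) = k x) → HasDerivAt k k' w →
      deriv (f^[K]) (g w) * deriv g w = k' := by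
    intro K g k w k' hg hw hU hk hk'
    have e1 := (hg.differentiableAt (isOpen_ball.mem_nhds hw)).hasDerivAt
    have e2 := (it_diff h hU).hasDerivAt
    have e3 : HasDerivAt (f^[K] ∘ g) (deriv (f^[K]) (g w) * deriv g w) w := e2.comp w e1
    refine e3.unique (hk'.congr_of_eventuallyEq ?_)
    filter_upwards [isOpen_ball.mem_nhds hw] with x hx
    exact hk x hx
  rcases Nat.eq_zero_or_pos u with rfl | hu
  · -- `c` is in `T3`
    have h1 : τ3 v = c := by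
      rw [← hst v hv, hve, T1.st 0 h00]
      exact hχ0
    have h2 := hchain T3.d hv (T3.hU v hv) T3.st (k := χ0)
      (hχ.differentiableAt (isOpen_ball.mem_nhds hv)).hasDerivAt
    rw [h1, it_cr h hc T3.K1 (fun j hj => by rw [← h1]; exact T3.hU v hv j hj), zero_mul] at h2
    exact hder hχ hχi v hv h2.symm
  · -- `τ1 0` is a critical point of `f^[K1]`
    have e1 : HasDerivAt (fun x => χ0 (BB b1 α u x)) 0 0 := by
      have e2 := bb_crit hu T1.al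
      have e3 : BB b1 α u 0 ∈ ball (0 : ℂ) 1 := mem_ball_zero_iff.2 (bb_lt T1.al (by simp))
      have e4 := (hχ.differentiableAt (isOpen_ball.mem_nhds e3)).hasDerivAt.comp (0 : ℂ) e2
      rwa [mul_zero] at e4
    have e5 := hchain T1.d h00 (T1.hU 0 h00) T1.st e1
    have e6 : deriv (f^[K1]) (τ1 0) = 0 := (mul_eq_zero.1 e5).resolve_right (hder T1.d T1.i 0 h00)
    have e7 := hchain (g := τ2) (k := τ3) T2.d hv (fun j hj => by rw [hve]; exact T1.hU 0 h00 j hj) hst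
      (T3.d.differentiableAt (isOpen_ball.mem_nhds hv)).hasDerivAt
    rw [hve, e6, zero_mul] at e7
    exact hder T3.d T3.i v hv e7.symm

end Pool.Agent.H41.XG
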