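import Pool.Agent.H15.TY.Llm
import Pool.Agent.H44.LB.If
import Pool.Agent.H66.DIM.If
import Pool.Agent.H66.GEO.Bas

/-!
# DIM* (MP_8f2e1c_an), chapter X*, (G6): the core of the proof of `mk_of`

If a lift of the collar of a bounded window around `φ x0` is `4πi` periodic, then at almost all finite stages the window `c + R n * φ (ρ' v)` has a univalent pull back
`g` (`Un`) by `f^[m n]` of the size `σ n` at `z`. (Copy of H15/TY/Main with `typS`, H44/LB/If, in the place of `typ`; the critical points which enter the small ball `ball c ε`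
are in `M`: `Mn.off`.)
-/

set_option autoImplicit false

open Filter Topology Metric Set MeasureTheory

namespace Pool.Agent.H41.XG

open Pool.Agent.H56.UD (PS dm Fn Dn Pn Ph Gd Sg FX)
open Pool.Agent.H56.WP (Wd)
open Pool.Agent.H15.TY (llm)
open Pool.Agent.H43.UB (ph_closed ph_off Fh)
open Pool.Agent.H64.XL (LT Lr)
open Pool.Agent.H41.XF (gb uq fh_eq fh_lift_eq sg_open fh_diff)
open Pool.Agent.H66.GEO (St st_open st_conv)
open Pool.Agent.H66.DIM (Mn)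
open Pool.Agent.H44.LA (Rc Un)

variable {f : ℂ → ℂ} {U J P M' Cr E : Set ℂ} {δ b0 : ℝ} {η : ℂ → ℂ → ℂ} {ρ : ℝ} {X hh μ : ℂ → ℂ} {c z : ℂ}

private theorem exp_ann {a b : ℝ} (ha : 0 < a) (hb : 0 < b) {t : ℂ} (ht : t ∈ St (Real.log a) (Real.log b)) :
    a < ‖Complex.exp t‖ ∧ ‖Complex.exp t‖ < b := by
  rw [Complex.norm_exp]
  exact ⟨(Real.log_lt_iff_lt_exp ha).1 ht.1, (Real.lt_log_iff_exp_lt hb).1 ht.2⟩

/-- a lift has nonvanishing derivative -/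
private theorem lift_der {𝒰 : Ultrafilter ℕ} {F : ℕ → ℂ → ℂ} {D P : ℕ → Set ℂ} (hT : LT 𝒰 F D P) {S : Set ℂ}
    (So : IsOpen S) {H Q : ℂ → ℂ} (hQ : DifferentiableOn ℂ Q S) (hg : ∀ u ∈ S, Gd 𝒰 F D P (H u) (Q u))
    {u : ℂ} (hu : u ∈ S) (hH : deriv H u ≠ 0) : deriv Q u ≠ 0 := by
  intro h0
  apply hH
  have h1 : HasDerivAt Q (deriv Q u) u := (hQ.differentiableAt (So.mem_nhds hu)).hasDerivAt
  have hs : Q u ∈ Sg 𝒰 F D P := ⟨_, hg u hu⟩
  have h2 : HasDerivAt (Fh 𝒰 F D P) (deriv (Fh 𝒰 F D P) (Q u)) (Q u) :=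
    ((fh_diff hT).differentiableAt ((sg_open hT).mem_nhds hs)).hasDerivAt
  have h3 := h2.comp u h1
  have h4 : (Fh 𝒰 F D P ∘ Q) =ᶠ[𝓝 u] H := by
    filter_upwards [So.mem_nhds hu] with v hv
    exact fh_eq hT (hg v hv)
  have h5 := h3.congr_of_eventuallyEq h4.symm
  rw [h5.deriv, h0, mul_zero]

/-- the critical points which enter a small ball at `c` are in `M'` -/
private theorem ent (h : PS f U J P Cr δ η ρ) (hM : Mn f P M') (hCP : Cr ⊆ P)
    (hin : ∀ c' ∈ Cr, ∀ j : ℕ, f^[j] c' ∈ M' → c' ∈ M') (hcM : c ∈ M') :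
    ∃ e : ℝ, 0 < e ∧ ∀ c' ∈ Cr, ∀ j : ℕ, f^[j] c' ∈ ball c e → c' ∈ M' := by
  have h1 : c ∈ (P \ M')ᶜ := fun h2 => h2.2 hcM
  obtain ⟨e, he, he2⟩ := Metric.isOpen_iff.1 hM.off.isOpen_compl c h1
  have hPf : ∀ (j : ℕ) (y : ℂ), y ∈ P → f^[j] y ∈ P := by
    intro j
    induction j with
    | zero => exact fun y hy => hy
    | succ j ih =>
      intro y hy
      rw [Function.iterate_succ_apply]
      exact ih _ (h.Pf y hy)
  refine ⟨e, he, fun c' hc' j hj => hin c' hc' j ?_⟩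
  by_contra h3
  exact he2 hj ⟨hPf j c' (hCP hc'), h3⟩

theorem ty_core (h : PS f U J P Cr δ η ρ) (hX : FX f U J E δ X hh μ b0) (hM : Mn f P M') (hCP : Cr ⊆ P)
    (hin : ∀ c' ∈ Cr, ∀ j : ℕ, f^[j] c' ∈ M' → c' ∈ M') (hz : z ∈ E) (hrc : ∀ b ∈ Cr, b ∈ M' → Rc f b z) (hcM : c ∈ M')
    {𝒰 : Ultrafilter ℕ} {m : ℕ → ℕ} {R σ : ℕ → ℂ} (hR : ∀ n, R n ≠ 0) (hRt : Tendsto R (𝒰 : Filter ℕ) (𝓝 0))
    (hT : LT 𝒰 (Fn f (fun _ => z) m (fun _ => c) R σ) (Dn f U J δ (fun _ => z) m σ) (Pn P (fun _ => c) R))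
    {φ G : ℂ → ℂ} {d : ℝ} (hd0 : 0 < d) (hd1 : d < 1) (dφ : DifferentiableOn ℂ φ (ball 0 1)) (iφ : InjOn φ (ball 0 1))
    (bφ : Bornology.IsBounded (φ '' ball 0 1)) {x0 : ℂ} (hx0 : ‖x0‖ < 1)
    (hL : Lr 𝒰 (Fn f (fun _ => z) m (fun _ => c) R σ) (Dn f U J δ (fun _ => z) m σ) (Pn P (fun _ => c) R)
      (St (Real.log (1 - d)) 0) (fun t => φ (Complex.exp t)) G)
    (hper : ∀ t ∈ St (Real.log (1 - d)) 0, G (t + 4 * Real.pi * Complex.I) = G t) :
    ∃ (ρ' θ A a : ℝ) (e : ℂ), ‖x0‖ < ρ' ∧ ρ' < 1 ∧ 0 < θ ∧ θ < 1 ∧ ‖e‖ < 1 ∧ 0 < a ∧ ∀ ε1 : ℝ, 0 < ε1 →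
      ∀ᶠ n in (𝒰 : Filter ℕ), ∃ g : ℂ → ℂ, Wd f U J P δ 0 θ c ε1 (fun v => c + R n * φ (ρ' * v)) ∧
        Un f U J δ (m n) (fun v => c + R n * φ (ρ' * v)) g ∧ ‖g e - z‖ ≤ A * ‖σ n‖ ∧ a * ‖σ n‖ ≤ ‖deriv g e‖ ∧
          ‖deriv g e‖ ≤ A * ‖σ n‖ := by
  obtain ⟨B, hB⟩ := bφ.exists_norm_le
  have hBx : ∀ x : ℂ, ‖x‖ < 1 → ‖φ x‖ ≤ B := fun x hx => hB _ ⟨x, mem_ball_zero_iff.2 hx, rfl⟩
  have hB0 : 0 ≤ B := (norm_nonneg _).trans (hBx 0 (by simp))
  -- the radii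
  obtain ⟨ρ', h1, hρ1⟩ := exists_between (max_lt (by linarith : 1 - d < 1) hx0)
  have hρd : 1 - d < ρ' := (le_max_left _ _).trans_lt h1
  have hρx : ‖x0‖ < ρ' := (le_max_right _ _).trans_lt h1
  obtain ⟨θ0, hθd, hθρ⟩ := exists_between hρd
  have hd1' : 0 < 1 - d := by linarith
  have hθ00 : 0 < θ0 := hd1'.trans hθd
  have hρ0 : 0 < ρ' := hθ00.trans hθρ
  have hρc : (ρ' : ℂ) ≠ 0 := Complex.ofReal_ne_zero.2 hρ0.ne'
  set θ : ℝ := θ0 / ρ' with hθdef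
  have hθ : 0 < θ := div_pos hθ00 hρ0
  have hθ1 : θ < 1 := (div_lt_one hρ0).2 hθρ
  -- the strip
  have hlog : Real.log θ = Real.log θ0 - Real.log ρ' := Real.log_div hθ00.ne' hρ0.ne'
  set S : Set ℂ := St (Real.log θ) 0 with hSdef
  have hSo : IsOpen S := st_open _ _
  have hSc : Convex ℝ S := st_conv _ _
  have hshift : ∀ t ∈ S, t + (Real.log ρ' : ℂ) ∈ St (Real.log θ0) (Real.log ρ') := by
    intro t ht
    have e : (t + (Real.log ρ' : ℂ)).re = t.re + Real.log ρ' := by simp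
    refine ⟨?_, ?_⟩
    · rw [e]; have := ht.1; rw [hlog] at this; linarith
    · rw [e]; have := ht.2; linarith
  have hsub : ∀ t ∈ St (Real.log θ0) (Real.log ρ'), t ∈ St (Real.log (1 - d)) 0 := by
    intro t ht
    exact ⟨(Real.log_lt_log hd1' hθd).trans ht.1, ht.2.trans (Real.log_neg hρ0 hρ1)⟩
  have hexps : ∀ t : ℂ, Complex.exp (t + (Real.log ρ' : ℂ)) = ρ' * Complex.exp t := by
    intro t
    rw [Complex.exp_add, ← Complex.ofReal_exp, Real.exp_log hρ0]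
    ring
  have hann : ∀ t ∈ S, θ0 < ‖(ρ' : ℂ) * Complex.exp t‖ ∧ ‖(ρ' : ℂ) * Complex.exp t‖ < ρ' := by
    intro t ht
    rw [← hexps]
    exact exp_ann hθ00 hρ0 (hshift t ht)
  set H : ℂ → ℂ := fun t => φ (ρ' * Complex.exp t) with hHdef
  have hHs : ∀ t, H t = φ (Complex.exp (t + (Real.log ρ' : ℂ))) := by
    intro t
    rw [hexps]
  have hmem1 : ∀ t ∈ S, (ρ' : ℂ) * Complex.exp t ∈ ball (0 : ℂ) 1 := by
    intro t ht
    rw [mem_ball_zero_iff]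
    exact (hann t ht).2.trans hρ1
  have hHd : DifferentiableOn ℂ H S :=
    dφ.comp (by fun_prop : DifferentiableOn ℂ (fun t : ℂ => (ρ' : ℂ) * Complex.exp t) S) hmem1
  have hHder : ∀ u ∈ S, deriv H u ≠ 0 := by
    intro u hu
    have e1 : HasDerivAt (fun t : ℂ => (ρ' : ℂ) * Complex.exp t) ((ρ' : ℂ) * Complex.exp u) u :=
      (Complex.hasDerivAt_exp u).const_mul _
    have e2 : HasDerivAt φ (deriv φ (ρ' * Complex.exp u)) (ρ' * Complex.exp u) :=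
      (dφ.differentiableAt (isOpen_ball.mem_nhds (hmem1 u hu))).hasDerivAt
    have e3 := e2.comp u e1
    have e4 : deriv H u = deriv φ (ρ' * Complex.exp u) * (ρ' * Complex.exp u) := e3.deriv
    rw [e4]
    refine mul_ne_zero ?_ (mul_ne_zero hρc (Complex.exp_ne_zero u))
    exact Pool.Agent.H43.UB.uh_der isOpen_ball dφ iφ (hmem1 u hu)
  obtain ⟨hL1, hL2, hL3, hL4, hL5, hL6⟩ := hL
  -- the collar is off the limit set
  have hoffx : ∀ x : ℂ, 1 - d < ‖x‖ → ‖x‖ < 1 → φ x ∉ Ph 𝒰 (Pn P (fun _ => c) R) := by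
    intro x hx hx1
    have hxne : x ≠ 0 := norm_pos_iff.1 (hd1'.trans hx)
    have hlx : Complex.log x ∈ St (Real.log (1 - d)) 0 := by
      have e : (Complex.log x).re = Real.log ‖x‖ := Complex.log_re x
      refine ⟨?_, ?_⟩
      · rw [e]; exact Real.log_lt_log hd1' hx
      · rw [e]; exact Real.log_neg (norm_pos_iff.2 hxne) hx1
    have := (hL6 _ hlx).1
    simp only [Complex.exp_log hxne] at this
    exact this
  set K : Set ℂ := φ '' {x : ℂ | θ0 ≤ ‖x‖ ∧ ‖x‖ ≤ ρ'} with hKdef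
  have hKc : IsCompact K := by
    have hc1 : IsCompact {x : ℂ | θ0 ≤ ‖x‖ ∧ ‖x‖ ≤ ρ'} := by
      refine (isCompact_closedBall (0 : ℂ) ρ').of_isClosed_subset ?_ ?_
      · exact (isClosed_le continuous_const continuous_norm).inter (isClosed_le continuous_norm continuous_const)
      · intro x hx
        rw [mem_closedBall_zero_iff]
        exact hx.2
    refine hc1.image_of_continuousOn (dφ.continuousOn.mono ?_)
    intro x hx
    rw [mem_ball_zero_iff]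
    exact hx.2.trans_lt hρ1
  have hKoff : Disjoint K (Ph 𝒰 (Pn P (fun _ => c) R)) := by
    rw [Set.disjoint_left]
    rintro _ ⟨x, hx, rfl⟩
    exact hoffx x (hθd.trans_le hx.1) (hx.2.trans_lt hρ1)
  have hKn := ph_off hKc hKoff
  have hHK : ∀ u ∈ S, H u ∈ K := fun u hu => ⟨_, ⟨(hann u hu).1.le, (hann u hu).2.le⟩, rfl⟩
  -- base point
  set t0 : ℂ := ((Real.log θ / 2 : ℝ) : ℂ) with ht0def
  have hlθ : Real.log θ < 0 := Real.log_neg hθ hθ1
  have ht0 : t0 ∈ S := by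
    refine ⟨?_, ?_⟩
    · rw [ht0def, Complex.ofReal_re]; linarith
    · rw [ht0def, Complex.ofReal_re]; linarith
  have ht04 : t0 + 4 * Real.pi * Complex.I ∈ S := by
    have e : (t0 + 4 * Real.pi * Complex.I).re = t0.re := by simp
    exact ⟨by rw [e]; exact ht0.1, by rw [e]; exact ht0.2⟩
  have hGd : ∀ u ∈ S, Gd 𝒰 (Fn f (fun _ => z) m (fun _ => c) R σ) (Dn f U J δ (fun _ => z) m σ) (Pn P (fun _ => c) R)
      (H u) (G (u + (Real.log ρ' : ℂ))) := by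
    intro u hu
    rw [hHs]
    exact hL6 _ (hsub _ (hshift u hu))
  -- the lifts
  obtain ⟨Q, Q0, hQ, hQ0d, hQu, hQ0, hQg⟩ := llm hT hSc hSo (Hn := fun _ => H) (H := H) (M := B + 1)
    (by
      filter_upwards [hKn] with n hn
      refine ⟨hHd, fun u hu => ⟨hHder u hu, ?_, ?_⟩⟩
      · have := hBx _ (mem_ball_zero_iff.1 (hmem1 u hu))
        exact lt_of_le_of_lt this (by linarith)
      · exact fun hp => Set.disjoint_left.1 hn (hHK u hu) hp)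
    (by
      intro V hV x hx
      exact ⟨S, self_mem_nhdsWithin, Eventually.of_forall fun n y _ => refl_mem_uniformity hV⟩)
    (fun u hu => (hGd u hu).1) ht0 (hGd t0 ht0)
  -- `Q0` is `G` shifted
  have hGsd : DifferentiableOn ℂ (fun u : ℂ => G (u + (Real.log ρ' : ℂ))) S :=
    hL5.comp (by fun_prop : DifferentiableOn ℂ (fun u : ℂ => u + (Real.log ρ' : ℂ)) S) fun u hu => hsub _ (hshift u hu)
  have hEq : EqOn Q0 (fun u : ℂ => G (u + (Real.log ρ' : ℂ))) S :=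
    fh_lift_eq hT hSo hSc.isPreconnected hQ0d hGsd
      (fun u hu => ⟨⟨_, hQg u hu⟩, fh_eq hT (hQg u hu)⟩)
      (fun u hu => ⟨⟨_, hGd u hu⟩, fh_eq hT (hGd u hu)⟩) hHder ht0 hQ0
  have hcl : Q0 (t0 + 4 * Real.pi * Complex.I) = Q0 t0 := by
    rw [hEq ht04, hEq ht0]
    have e : t0 + 4 * Real.pi * Complex.I + (Real.log ρ' : ℂ) = (t0 + (Real.log ρ' : ℂ)) + 4 * Real.pi * Complex.I := by
      ring
    simp only [e]
    exact hper _ (hsub _ (hshift t0 ht0))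
  have hQt : Tendsto (fun n => Q n t0) (𝒰 : Filter ℕ) (𝓝 (Q0 t0)) := hQu.tendsto_at ht0
  have hQt4 : Tendsto (fun n => Q n (t0 + 4 * Real.pi * Complex.I)) (𝒰 : Filter ℕ) (𝓝 (Q0 t0)) := by
    rw [← hcl]
    exact hQu.tendsto_at ht04
  have hH4 : H (t0 + 4 * Real.pi * Complex.I) = H t0 := by
    simp only [hHdef]
    congr 2
    rw [Complex.exp_add]
    have : Complex.exp (4 * Real.pi * Complex.I) = 1 := by
      rw [show (4 * Real.pi * Complex.I : ℂ) = ((2 : ℤ) : ℂ) * (2 * Real.pi * Complex.I) by push_cast; ring]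
      exact Complex.exp_int_mul_two_pi_mul_I 2
    rw [this, mul_one]
  have hclose : ∀ᶠ n in (𝒰 : Filter ℕ), Q n (t0 + 4 * Real.pi * Complex.I) = Q n t0 := by
    refine uq hT (w := H t0) (s := Q0 t0) (hQg t0 ht0) hQt4 hQt ?_
    filter_upwards [hQ] with n hn
    rw [(hn.2 _ ht04).2, (hn.2 _ ht0).2, hH4]
  -- the derivative
  have hD0 : deriv Q0 t0 ≠ 0 := lift_der hT hSo hQ0d hQg ht0 (hHder t0 ht0)
  have hDu : Tendsto (fun n => deriv (Q n) t0) (𝒰 : Filter ℕ) (𝓝 (deriv Q0 t0)) :=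
    (hQu.deriv (hQ.mono fun n hn => hn.1) hSo).tendsto_at ht0
  set M : ℝ := (‖Q0 t0‖ + 1) / (‖deriv Q0 t0‖ / 2) with hMdef
  have hDn : 0 < ‖deriv Q0 t0‖ := norm_pos_iff.2 hD0
  have hM0 : 0 ≤ M := by positivity
  have hratio : ∀ᶠ n in (𝒰 : Filter ℕ), ‖Q n t0‖ ≤ M * ‖deriv (Q n) t0‖ := by
    have e1 : ∀ᶠ n in (𝒰 : Filter ℕ), ‖Q n t0‖ < ‖Q0 t0‖ + 1 :=
      hQt.norm.eventually (gt_mem_nhds (by linarith))
    have e2 : ∀ᶠ n in (𝒰 : Filter ℕ), ‖deriv Q0 t0‖ / 2 < ‖deriv (Q n) t0‖ :=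
      hDu.norm.eventually (lt_mem_nhds (by linarith))
    filter_upwards [e1, e2] with n h1 h2
    calc ‖Q n t0‖ ≤ ‖Q0 t0‖ + 1 := h1.le
      _ = M * (‖deriv Q0 t0‖ / 2) := by rw [hMdef]; field_simp
      _ ≤ M * ‖deriv (Q n) t0‖ := mul_le_mul_of_nonneg_left h2.le hM0
  -- TYPES
  have hexp0 : ‖Complex.exp t0‖ = Real.exp (Real.log θ / 2) := by
    rw [Complex.norm_exp, ht0def, Complex.ofReal_re]
  have hθa : θ < Real.exp (Real.log θ / 2) := by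
    rw [← Real.log_lt_iff_lt_exp hθ]
    linarith
  have hθb : Real.exp (Real.log θ / 2) < 1 := by
    rw [Real.exp_lt_one_iff]
    linarith
  have he0 : 0 < Real.exp (Real.log θ / 2) := Real.exp_pos _
  obtain ⟨e1, he1, hent⟩ := ent h hM hCP hin hcM
  obtain ⟨ε0, hε0, htyp⟩ := Pool.Agent.H44.LB.typS h hX hz (θ := θ) (M := M)
    (ρa := Real.exp (Real.log θ / 2)) (ρb := Real.exp (Real.log θ / 2)) hθ hθ1 hθa hθb
  -- the bounds
  have hup : ∀ᶠ n in (𝒰 : Filter ℕ), ‖Q n t0‖ ≤ ‖Q0 t0‖ + 1 ∧ ‖deriv Q0 t0‖ / 2 ≤ ‖deriv (Q n) t0‖ ∧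
      ‖deriv (Q n) t0‖ ≤ ‖deriv Q0 t0‖ + 1 := by
    have e1 : ∀ᶠ n in (𝒰 : Filter ℕ), ‖Q n t0‖ < ‖Q0 t0‖ + 1 :=
      hQt.norm.eventually (gt_mem_nhds (by linarith))
    have e2 : ∀ᶠ n in (𝒰 : Filter ℕ), ‖deriv Q0 t0‖ / 2 < ‖deriv (Q n) t0‖ :=
      hDu.norm.eventually (lt_mem_nhds (by linarith))
    have e3 : ∀ᶠ n in (𝒰 : Filter ℕ), ‖deriv (Q n) t0‖ < ‖deriv Q0 t0‖ + 1 :=
      hDu.norm.eventually (gt_mem_nhds (by linarith))
    filter_upwards [e1, e2, e3] with n h1 h2 h3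
    exact ⟨h1.le, h2.le, h3.le⟩
  refine ⟨ρ', θ, max (‖Q0 t0‖ + 1) ((‖deriv Q0 t0‖ + 1) / Real.exp (Real.log θ / 2)),
    ‖deriv Q0 t0‖ / 2 / Real.exp (Real.log θ / 2), Complex.exp t0, hρx, hρ1, hθ, hθ1, by rw [hexp0]; exact hθb,
    by positivity, ?_⟩
  intro ε1 hε1
  -- small scale
  have hεm : 0 < min ε1 (min ε0 e1) := lt_min hε1 (lt_min hε0 he1)
  have hsmall : ∀ᶠ n in (𝒰 : Filter ℕ), ‖R n‖ * B < min δ (min ε1 (min ε0 e1)) := by
    have e1 : Tendsto (fun n => ‖R n‖ * B) (𝒰 : Filter ℕ) (𝓝 0) := by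
      have := hRt.norm.mul_const B
      simpa using this
    exact e1.eventually (gt_mem_nhds (lt_min h.hδ hεm))
  filter_upwards [hKn, hQ, hclose, hratio, hsmall, hup] with n hn1 hn2 hn3 hn4 hn5 hn6
  have hcJ : c ∈ J := h.PJ (hM.sub hcM)
  set Φ : ℂ → ℂ := fun v => c + R n * φ (ρ' * v) with hΦdef
  have hρv : ∀ v ∈ ball (0 : ℂ) 1, ‖(ρ' : ℂ) * v‖ < ρ' := by
    intro v hv
    rw [mem_ball_zero_iff] at hv
    rw [norm_mul, Complex.norm_real, Real.norm_eq_abs, abs_of_pos hρ0]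
    nlinarith
  have hρv1 : ∀ v ∈ ball (0 : ℂ) 1, (ρ' : ℂ) * v ∈ ball (0 : ℂ) 1 := by
    intro v hv
    rw [mem_ball_zero_iff]
    exact (hρv v hv).trans hρ1
  have hΦn : ∀ v ∈ ball (0 : ℂ) 1, ‖Φ v - c‖ < min δ (min ε1 (min ε0 e1)) := by
    intro v hv
    have e : Φ v - c = R n * φ (ρ' * v) := by simp [hΦdef]
    rw [e, norm_mul]
    refine lt_of_le_of_lt (mul_le_mul_of_nonneg_left (hBx _ (mem_ball_zero_iff.1 (hρv1 v hv))) (norm_nonneg _)) hn5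
  have hWd : ∀ ε' : ℝ, min ε1 (min ε0 e1) ≤ ε' → Wd f U J P δ 0 θ c ε' Φ := by
    intro ε' hε'
    refine ⟨?_, ?_, ?_, ?_⟩
    · refine DifferentiableOn.const_add _ (DifferentiableOn.const_mul ?_ _)
      exact dφ.comp (by fun_prop : DifferentiableOn ℂ (fun v : ℂ => (ρ' : ℂ) * v) (ball 0 1)) hρv1
    · intro v hv w hw hvw
      have e1 : R n * φ (ρ' * v) = R n * φ (ρ' * w) := by
        simpa [hΦdef] using hvw
      have e2 := mul_left_cancel₀ (hR n) e1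
      exact mul_left_cancel₀ hρc (iφ (hρv1 v hv) (hρv1 w hw) e2)
    · intro v hv
      have e1 := hΦn v hv
      refine ⟨⟨fun j hj => absurd hj (Nat.not_lt_zero j), ?_⟩, ?_⟩
      · rw [mem_thickening_iff]
        exact ⟨c, hcJ, by
          rw [Function.iterate_zero, id, dist_eq_norm]
          exact e1.trans_le (min_le_left _ _)⟩
      · rw [Function.iterate_zero, id, mem_ball_iff_norm]
        exact (e1.trans_le (min_le_right _ _)).trans_le hε'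
    · intro v hv hv1 hP
      rw [Function.iterate_zero, id] at hP
      have hvK : φ (ρ' * v) ∈ K := by
        refine ⟨_, ⟨?_, ?_⟩, rfl⟩
        · rw [norm_mul, Complex.norm_real, Real.norm_eq_abs, abs_of_pos hρ0]
          have := (div_lt_iff₀ hρ0).1 hv
          linarith
        · exact (hρv v (mem_ball_zero_iff.2 hv1)).le
      exact Set.disjoint_left.1 hn1 hvK hP
  -- the finite lift
  set q : ℂ → ℂ := fun t => z + σ n * Q n t with hqdef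
  have hqd : DifferentiableOn ℂ q (St (Real.log θ) 0) := (hn2.1.const_mul _).const_add _
  have hqv : ∀ t ∈ St (Real.log θ) 0, q t ∈ dm f U J δ (m n) ∧ f^[m n] (q t) = Φ (Complex.exp t) := by
    intro t ht
    obtain ⟨e1, e2⟩ := hn2.2 t ht
    refine ⟨e1, ?_⟩
    have e3 : (f^[m n] (z + σ n * Q n t) - c) / R n = φ (ρ' * Complex.exp t) := e2
    rw [div_eq_iff (hR n)] at e3
    change f^[m n] (z + σ n * Q n t) = c + R n * φ (ρ' * Complex.exp t)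
    linear_combination e3
  have hqder : deriv q t0 = σ n * deriv (Q n) t0 := by
    have e1 : HasDerivAt (Q n) (deriv (Q n) t0) t0 := (hn2.1.differentiableAt (hSo.mem_nhds ht0)).hasDerivAt
    exact ((e1.const_mul (σ n)).const_add z).deriv
  obtain ⟨g, hg1, hg2⟩ := htyp (m n) c (min ε1 (min ε0 e1)) Φ q t0 t0 hcJ ((min_le_right _ _).trans (min_le_left _ _))
    (hWd _ le_rfl) (fun c' hc' j hj => hrc c' hc' (hent c' hc' j
      (ball_subset_ball ((min_le_right _ _).trans (min_le_right _ _)) hj))) hqd hqv ht0 hexp0.ge hexp0.le (by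
      have e1 : q t0 - z = σ n * Q n t0 := by simp [hqdef]
      rw [e1, hqder, norm_mul, norm_mul]
      have := mul_le_mul_of_nonneg_left hn4 (norm_nonneg (σ n))
      linarith) ht0 (by
      simp only [hqdef, hn3])
  have hge : g (Complex.exp t0) = z + σ n * Q n t0 := (hg2 t0 ht0).symm
  have heb : Complex.exp t0 ∈ ball (0 : ℂ) 1 := by
    rw [mem_ball_zero_iff, hexp0]
    exact hθb
  have hgd : deriv g (Complex.exp t0) * Complex.exp t0 = σ n * deriv (Q n) t0 := by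
    rw [← hqder]
    have e1 := ((hg1.1.differentiableAt (isOpen_ball.mem_nhds heb)).hasDerivAt.comp t0 (Complex.hasDerivAt_exp t0))
    have e2 : (g ∘ Complex.exp) =ᶠ[𝓝 t0] q := by
      filter_upwards [hSo.mem_nhds ht0] with t ht
      exact (hg2 t ht).symm
    exact ((e1.congr_of_eventuallyEq e2.symm).deriv).symm
  have hgn : ‖deriv g (Complex.exp t0)‖ = ‖σ n‖ * ‖deriv (Q n) t0‖ / Real.exp (Real.log θ / 2) := by
    rw [eq_div_iff he0.ne', ← hexp0, ← norm_mul, hgd, norm_mul]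
  refine ⟨g, hWd ε1 (min_le_left _ _), hg1, ?_, ?_, ?_⟩
  · have e1 : g (Complex.exp t0) - z = σ n * Q n t0 := by rw [hge]; ring
    rw [e1, norm_mul, mul_comm]
    exact mul_le_mul_of_nonneg_right (hn6.1.trans (le_max_left _ _)) (norm_nonneg _)
  · rw [hgn, mul_comm, div_eq_mul_inv, div_eq_mul_inv (‖σ n‖ * _), ← mul_assoc]
    refine mul_le_mul_of_nonneg_right ?_ (inv_nonneg.2 he0.le)
    exact mul_le_mul_of_nonneg_left hn6.2.1 (norm_nonneg _)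
  · rw [hgn]
    have e1 : (‖deriv Q0 t0‖ + 1) / Real.exp (Real.log θ / 2) * ‖σ n‖ ≤
        max (‖Q0 t0‖ + 1) ((‖deriv Q0 t0‖ + 1) / Real.exp (Real.log θ / 2)) * ‖σ n‖ :=
      mul_le_mul_of_nonneg_right (le_max_right _ _) (norm_nonneg _)
    refine le_trans ?_ e1
    rw [div_mul_eq_mul_div, mul_comm (‖deriv Q0 t0‖ + 1)]
    exact div_le_div_of_nonneg_right (mul_le_mul_of_nonneg_left hn6.2.2 (norm_nonneg _)) he0.le

end Pool.Agent.H41.XG
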