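import Pool.Agent.H41.XG.Comb
import Pool.Agent.H41.XG.Fin

/-!
# DIM* (MP_8f2e1c_an), chapter X*, (G4): the numbers `N(s,l)` are unbounded

Windows `T_(s,l)` (`TT`, type `N n s l`, chart `τ n s l`, time `K n s - K n l`) for `l < s` in the infinite set `B`, along the ultrafilter `𝒰`, over the base windows `χ n` at `c`.
If the types are at most `C0` along `𝒰` for all pairs: `g4_comb` for the limits of the types and of the rescaled points `(τ n s l 0 - c) / ‖χ n' 0‖` gives `k < l < m` for which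
`g4_fin` applies.
-/

set_option autoImplicit false

open Filter Topology Metric Set

namespace Pool.Agent.H41.XG

open Pool.Agent.H56.UD (PS)
open Pool.Agent.H64.XL
open Pool.Agent.H66.GEO (Bl BB)
open Pool.Agent.H3.SZ2 (TT tt_lo tt_zb)

variable {f : ℂ → ℂ} {U J P Cr : Set ℂ} {δ : ℝ} {η : ℂ → ℂ → ℂ} {ρ : ℝ} {θ r M : ℝ}

private theorem uc (V : Ultrafilter ℕ) {N : ℕ → ℕ} {C : ℕ} (h : ∀ᶠ s in (V : Filter ℕ), N s ≤ C) :
    ∃ u ≤ C, ∀ᶠ s in (V : Filter ℕ), N s = u := by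
  have h1 : (⋃ u ∈ (Finset.range (C + 1) : Set ℕ), {s | N s = u}) ∈ V := by
    refine Filter.mem_of_superset h fun s hs => ?_
    simp only [mem_iUnion]
    exact ⟨N s, by simpa [Nat.lt_succ_iff] using hs, rfl⟩
  obtain ⟨u, hu1, hu⟩ := (Ultrafilter.finite_biUnion_mem_iff (Finset.finite_toSet _)).1 h1
  refine ⟨u, ?_, hu⟩
  have : u < C + 1 := by simpa using hu1
  omega

theorem g4 (h : PS f U J P Cr δ η ρ) {c : ℂ} (hc : c ∈ Cr) (hM : 1 ≤ M) (hθ0 : 0 ≤ θ) (hθr : θ < r) (hr1 : r < 1)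
    {𝒰 : Ultrafilter ℕ} {ε : ℕ → ℝ} (hε : Tendsto ε (𝒰 : Filter ℕ) (𝓝 0)) {χ : ℕ → ℂ → ℂ}
    (hW : ∀ᶠ n in (𝒰 : Filter ℕ), Wt f U J P δ c θ M (ε n) (χ n)) {B : Set ℕ} (hB : B.Infinite)
    {α : ℕ → ℕ → ℂ} {K : ℕ → ℕ → ℕ} {N : ℕ → ℕ → ℕ → ℕ} {τ : ℕ → ℕ → ℕ → ℂ → ℂ}
    (hT : ∀ s ∈ B, ∀ l ∈ B, l < s → ∀ᶠ n in (𝒰 : Filter ℕ),
      TT f U P θ r (χ n) (α n) (N n s l) (K n s - K n l) (τ n s l))
    (hst : ∀ k ∈ B, ∀ l ∈ B, ∀ m ∈ B, k < l → l < m → ∀ᶠ n in (𝒰 : Filter ℕ), N n m k = N n m l →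
      ∀ v ∈ ball (0 : ℂ) 1, f^[K n l - K n k] (τ n m k v) = τ n m l v) (C0 : ℕ) :
    ∃ s ∈ B, ∃ l ∈ B, l < s ∧ ∀ᶠ n in (𝒰 : Filter ℕ), C0 < N n s l := by
  by_contra hcon
  push Not at hcon
  have hcJ : c ∈ J := h.CJ hc
  -- the types are bounded
  have hb : ∀ s ∈ B, ∀ l ∈ B, l < s → ∀ᶠ n in (𝒰 : Filter ℕ), N n s l ≤ C0 := by
    intro s hs l hl hls
    exact hcon s hs l hl hls
  have hN : ∀ s l, ∃ u, s ∈ B → l ∈ B → l < s → u ≤ C0 ∧ ∀ᶠ n in (𝒰 : Filter ℕ), N n s l = u := by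
    intro s l
    by_cases hsl : s ∈ B ∧ l ∈ B ∧ l < s
    · obtain ⟨u, h1, h2⟩ := uc 𝒰 (hb s hsl.1 l hsl.2.1 hsl.2.2)
      exact ⟨u, fun _ _ _ => ⟨h1, h2⟩⟩
    · exact ⟨0, fun a b c => absurd ⟨a, b, c⟩ hsl⟩
  choose N' hN' using hN
  -- the constants
  choose Cz ez hCz hez hz using fun u => tt_zb (θ := θ) (r := r) (M := M) h hM hθ0 hθr hr1 u
  choose κ hκ hlo using fun u => tt_lo (θ := θ) (r := r) hθ0 hθr hr1 u
  obtain ⟨L, hL⟩ : ∃ L : ℝ, ∀ u ≤ C0, Cz u ≤ L :=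
    ⟨∑ i ∈ Finset.range (C0 + 1), Cz i, fun u hu =>
      Finset.single_le_sum (f := Cz) (fun i _ => (zero_le_one.trans (hCz i))) (Finset.mem_range.2 (by omega))⟩
  have hWd : ∀ᶠ n in (𝒰 : Filter ℕ), 0 < ‖deriv (χ n) 0‖ := by
    filter_upwards [hW] with n hn
    exact norm_pos_iff.2 (Pool.Agent.H43.UB.uh_der isOpen_ball hn.d hn.i (mem_ball_self one_pos))
  -- the rescaled points
  have hpb : ∀ s ∈ B, ∀ l ∈ B, l < s → ∀ᶠ n in (𝒰 : Filter ℕ),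
      ‖(τ n s l 0 - c) / (‖deriv (χ n) 0‖ : ℂ)‖ ≤ L := by
    intro s hs l hl hls
    obtain ⟨hu1, hu2⟩ := hN' s l hs hl hls
    have he : ∀ᶠ n in (𝒰 : Filter ℕ), ε n < ez (N' s l) := hε.eventually_lt_const (hez _)
    filter_upwards [hT s hs l hl hls, hW, hWd, hu2, he] with n n1 n2 n3 n4 n5
    rw [n4] at n1
    have h1 := (hz (N' s l) n1 hcJ n2 n5.le).1
    rw [norm_div, Complex.norm_real, norm_norm, div_le_iff₀ n3]
    exact h1.trans (mul_le_mul_of_nonneg_right (hL _ hu1) n3.le)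
  have hp : ∀ s l, ∃ q : ℂ, s ∈ B → l ∈ B → l < s → ‖q‖ ≤ L ∧
      Tendsto (fun n => (τ n s l 0 - c) / (‖deriv (χ n) 0‖ : ℂ)) (𝒰 : Filter ℕ) (𝓝 q) := by
    intro s l
    by_cases hsl : s ∈ B ∧ l ∈ B ∧ l < s
    · have h2 : closedBall (0 : ℂ) L ∈ 𝒰.map fun n => (τ n s l 0 - c) / (‖deriv (χ n) 0‖ : ℂ) := by
        rw [Ultrafilter.mem_map]
        filter_upwards [hpb s hsl.1 l hsl.2.1 hsl.2.2] with n hn
        show _ ∈ closedBall (0 : ℂ) L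
        rw [mem_closedBall_zero_iff]
        exact hn
      obtain ⟨q, hq1, hq⟩ := (isCompact_closedBall (0 : ℂ) L).ultrafilter_le_nhds' _ h2
      exact ⟨q, fun _ _ _ => ⟨mem_closedBall_zero_iff.1 hq1, hq⟩⟩
    · exact ⟨0, fun a b c => absurd ⟨a, b, c⟩ hsl⟩
  choose p hp' using hp
  obtain ⟨k, hk, l, hl, m, hm, hkl, hlm, u, u1, u2, u3, hdist⟩ := g4_comb hB (N := N') (C := C0)
    (fun s hs l hl hls => (hN' s l hs hl hls).1) (p := p) (L := L) (fun s hs l hl hls => (hp' s l hs hl hls).1)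
    (ε := fun u => κ u / 32) (fun u => by have := hκ u; positivity)
  have hkm := hkl.trans hlm
  have e1 := (hN' l k hl hk hkl).2
  have e2 := (hN' m k hm hk hkm).2
  have e3 := (hN' m l hm hl hlm).2
  rw [u1] at e1
  rw [u2] at e2
  rw [u3] at e3
  have hlim := (hp' l k hl hk hkl).2.sub (hp' m k hm hk hkm).2
  have hlt : ∀ᶠ n in (𝒰 : Filter ℕ), ‖(τ n l k 0 - c) / (‖deriv (χ n) 0‖ : ℂ) - (τ n m k 0 - c) / (‖deriv (χ n) 0‖ : ℂ)‖ <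
      κ u / 16 := by
    refine hlim.norm.eventually_lt_const (hdist.trans ?_)
    have := hκ u
    linarith
  obtain ⟨n, n1, n2, n3, n4, n5, n6, n7, n8, n9, n10⟩ := (e1.and (e2.and (e3.and (hlt.and ((hT l hl k hk hkl).and
    ((hT m hm k hk hkm).and ((hT m hm l hl hlm).and ((hst k hk l hl m hm hkl hlm).and (hW.and hWd))))))))).exists
  rw [n1] at n5
  rw [n2] at n6
  rw [n3] at n7
  refine g4_fin h hc n9.d n9.i n9.c0 n5 n6 n7 (n8 (n2.trans n3.symm)) ?_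
  have h1 := hlo u n6 n9.d n9.i
  have h2 : (τ n l k 0 - c) / (‖deriv (χ n) 0‖ : ℂ) - (τ n m k 0 - c) / (‖deriv (χ n) 0‖ : ℂ) =
      (τ n l k 0 - τ n m k 0) / (‖deriv (χ n) 0‖ : ℂ) := by
    rw [← sub_div]
    congr 1
    ring
  rw [h2, norm_div, Complex.norm_real, norm_norm, div_lt_iff₀ n10] at n4
  calc ‖τ n l k 0 - τ n m k 0‖ < κ u / 16 * ‖deriv (χ n) 0‖ := n4
    _ = κ u * ‖deriv (χ n) 0‖ / 16 := by ring
    _ ≤ ‖deriv (τ n m k) 0‖ / 16 := div_le_div_of_nonneg_right h1 (by norm_num)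

end Pool.Agent.H41.XG
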